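import Mathlib
import Pool.Agent.H.MP_808179_co.A

namespace Pool.Agent.Results.MP_808179_co.Counter

open Matrix Finset Pool.Agent.H.MP_808179_co.A

open Classical in
/-- `G` achieves the multiplicity bipartition `[n - k, k]`: some real symmetric matrix whose
off-diagonal nonzero pattern is the edge set of `G` has two distinct numbers `l`, `m` as
eigenvalues with multiplicities `n - k` and `k` (so these are all its eigenvalues). -/
def Achieves {n : ℕ} (G : SimpleGraph (Fin n)) (k : ℕ) : Prop :=
  ∃ (A : Matrix (Fin n) (Fin n) ℝ) (hA : A.IsHermitian),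
    (∀ i j, i ≠ j → (A i j ≠ 0 ↔ G.Adj i j)) ∧
    ∃ l m : ℝ, l ≠ m ∧ (univ.filter fun i => hA.eigenvalues i = l).card = n - k ∧
      (univ.filter fun i => hA.eigenvalues i = m).card = k

noncomputable def e : Fin 18 ≃ V := (Fintype.equivFinOfCardEq (by simp)).symm

def G : SimpleGraph (Fin 18) where
  Adj i j := adj (e i) (e j)
  symm := ⟨fun i j h => by
    revert h
    generalize e i = x
    generalize e j = y
    revert x y
    decide⟩
  loopless := ⟨fun i h => by simp [adj] at h⟩

open Classical in
theorem tr {A : Matrix (Fin 18) (Fin 18) ℝ} (hA : A.IsHermitian) {l m : ℝ} (hlm : l ≠ m)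
    (h : ∀ i, hA.eigenvalues i = l ∨ hA.eigenvalues i = m) :
    (univ.filter fun i => hA.eigenvalues i = l).card +
      (univ.filter fun i => hA.eigenvalues i = m).card = 18 ∧
    A.trace = 18 * l + ((univ.filter fun i => hA.eigenvalues i = m).card : ℝ) * (m - l) := by
  constructor
  · have := Finset.card_filter_add_card_filter_not (s := (univ : Finset (Fin 18)))
      (fun i => hA.eigenvalues i = l)
    rw [card_univ, Fintype.card_fin] at this
    refine Eq.trans ?_ this
    congr 2
    refine Finset.filter_congr fun i _ => ⟨fun a b => hlm (b.symm.trans a), (h i).resolve_left⟩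
  · rw [hA.trace_eq_sum_eigenvalues]
    have : ∀ i, hA.eigenvalues i = l + if hA.eigenvalues i = m then m - l else 0 := by
      intro i
      split_ifs with hi
      · linarith
      · rw [(h i).resolve_right hi, add_zero]
    simp only [RCLike.ofReal_real_eq_id, id]
    rw [Finset.sum_congr rfl fun i _ => this i, Finset.sum_add_distrib, ← Finset.sum_filter]
    simp
    ring

theorem yes8 : Achieves G 8 := by
  classical
  obtain ⟨A, hAe⟩ : ∃ A : Matrix (Fin 18) (Fin 18) ℝ, ∀ i j, A i j = (B (e i) (e j) : ℝ) :=
    ⟨Matrix.of fun i j => (B (e i) (e j) : ℝ), fun _ _ => rfl⟩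
  have hA : A.IsHermitian := by
    ext i j
    simp [hAe, conjTranspose_apply, B_symm (e j) (e i)]
  have hq : A * A = ((0 : ℝ) + 146450) • A - ((0 : ℝ) * 146450) • 1 := by
    ext i j
    have := B_sq (e i) (e j)
    rw [← Equiv.sum_comp e] at this
    simp only [mul_apply, hAe, zero_add, zero_mul, zero_smul, sub_zero, Matrix.smul_apply,
      smul_eq_mul]
    exact_mod_cast this
  have ht : A.trace = 8 * 146450 := by
    have := B_tr
    rw [← Equiv.sum_comp e] at this
    simp only [Matrix.trace, diag_apply, hAe]
    exact_mod_cast this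
  obtain ⟨h1, h2⟩ := tr hA (by norm_num) ((quad_iff hA 0 146450).2 hq)
  have h3 : (univ.filter fun i => hA.eigenvalues i = 146450).card = 8 := by
    have : ((univ.filter fun i => hA.eigenvalues i = 146450).card : ℝ) = 8 := by linarith
    exact_mod_cast this
  refine ⟨A, hA, fun i j hij => ?_, 0, 146450, by norm_num, by omega, h3⟩
  simp only [hAe, ne_eq, Int.cast_eq_zero]
  exact B_nz _ _ (e.injective.ne hij)

theorem not9 : ¬ Achieves G 9 := by
  classical
  rintro ⟨A, hA, hz, l, m, hlm, h1, h2⟩
  have h : ∀ i, hA.eigenvalues i = l ∨ hA.eigenvalues i = m := by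
    have hd : Disjoint (univ.filter fun i => hA.eigenvalues i = l)
        (univ.filter fun i => hA.eigenvalues i = m) :=
      Finset.disjoint_filter.2 fun i _ a b => hlm (a.symm.trans b)
    have hu := Finset.eq_univ_of_card _ (show ((univ.filter fun i => hA.eigenvalues i = l) ∪
        (univ.filter fun i => hA.eigenvalues i = m)).card = Fintype.card (Fin 18) by
      rw [card_union_of_disjoint hd, h1, h2]; rfl)
    intro i
    have := hu ▸ mem_univ i
    simpa using this
  have hq := (quad_iff hA l m).1 h
  have ht := (tr hA hlm h).2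
  rw [h2] at ht
  have hc : m - l ≠ 0 := sub_ne_zero.2 hlm.symm
  let Q : Matrix (Fin 18) (Fin 18) ℝ := (m - l)⁻¹ • (A - l • 1)
  have hQ : Q * Q = Q := by
    simp only [Q, smul_mul_assoc, mul_smul_comm, sub_mul, mul_sub, one_mul, mul_one, hq]
    ext i j
    simp only [Matrix.smul_apply, Matrix.sub_apply, smul_eq_mul]
    field_simp
    ring
  refine no9 (Q.submatrix e.symm e.symm) (fun x y => ?_) ?_ (fun x y hxy => ?_) ?_
  · have := hA.apply (e.symm x) (e.symm y)
    simp only [star_trivial] at this
    simp [Q, this, one_apply, eq_comm]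
  · rw [submatrix_mul_equiv, hQ]
  · have hne : e.symm x ≠ e.symm y := e.symm.injective.ne hxy
    have := hz _ _ hne
    simp only [G, Equiv.apply_symm_apply] at this
    rw [← this]
    simp [Q, hne, hc]
  · have : (Q.submatrix e.symm e.symm).trace = Q.trace := by
      simp only [Matrix.trace, diag_apply, submatrix_apply]
      exact Equiv.sum_comp e.symm (fun i => Q i i)
    rw [this]
    simp only [Q, trace_smul, trace_sub, trace_one, ht, smul_eq_mul, Fintype.card_fin]
    field_simp
    push_cast
    ring

theorem result :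
    ¬ ∀ (n k : ℕ), 3 ≤ k → k + 1 ≤ n / 2 →
      ∀ G : SimpleGraph (Fin n), Achieves G k → Achieves G (k + 1) :=
  fun h => not9 (h 18 8 (by norm_num) (by norm_num) G yes8)

end Pool.Agent.Results.MP_808179_co.Counter
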